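import Mathlib
import Pool.Agent.T2h16.TE.Fin

/-!
# The `3`-part of the Birch and Swinnerton-Dyer conjecture over `ℚ(√-3)` for the prime twists of
every curve `y² + D y = x³`

`K` is the field of third roots of unity and `E_D : y² + D y = x³` for `D = 1` modulo `3` in `𝓞 K`,
`D` cube-free; these are the cubic twists of `E_1 : y² + y = x³` (a curve with complex multiplication
by `𝓞 K`) by the `D` prime to `3`.  The starting file `ThreePartCubeFree` has the proportion
`0.639...` of the good `D` among all of them.  Here the twist `D` is FIXED (any `D`, whatever the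
rank, the `3`-part of `Ш` and the norm of `D`), and only the twists `D ρ ^ m`, `m = 1, 2`, by ONE more
prime `ρ` are considered; these are thin families (of about `X / log X` members up to `X`).

Let `n` be the number of the prime factors of `D`, let `L` be the Laplacian of the cubic residue
symbols of the prime factors of `D` over the field with three elements (with the exponents in `D` as
weights), and let `r` be a class of the norm of `ρ` modulo `9` with `N(D) r ^ m ≠ 1` modulo `9` (for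
each `D` and `m` two of the three classes `1, 4, 7` can be taken).

* For all the primary primes `ρ` of norm `r` modulo `9` that do not divide `D`: `L(E_{D ρ ^ m} / K, s)`
  is entire, the quotient of `L(E_{D ρ ^ m} / K, 1)` and of the right-hand side of the conjecture (for
  rank `0`) without the order of `Ш` is integral above `3`, and it is a unit there if and only if
  `E_{D ρ ^ m}(K)` is finite and `Ш[3^∞] = 0`; and this depends only on the class of `ρ` modulo the
  product of the prime factors of `D`: it is the case if and only if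
  `det (L - m diag(χ' 1, ..., χ' n)) ≠ 0`, where `ω ^ χ' k` is the cubic residue symbol of `ρ` modulo
  the `k`-th prime factor of `D`.
* The proportion of these `ρ` for which all of this happens (so that `L(E_{D ρ ^ m} / K, 1) ≠ 0`,
  `E_{D ρ ^ m}(K)` is finite, `Ш[3^∞] = 0` and the quotient is a unit above `3`) is exactly
  `c(D) = #{u : det (L + diag u) ≠ 0} / 3 ^ n`, and
  `(2 / 3) ^ n ≤ c(D) ≤ 1 - (2 / 3) ^ n / 2` (the upper bound for `n ≥ 1`; for `n = 0` one has
  `c(D) = 1`).

Proof: the criterion for all `D` (the projects CT, CTK, KF of earlier teams: the `L`-values by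
division points, the `3`-descent, the Tamagawa numbers, cubic reciprocity), the behaviour of weighted
Laplacians under the addition of a vertex, and the joint law of the cubic residue symbols of a varying
Eisenstein prime modulo fixed primes and of its norm modulo `9` (the density theorem of Chebotarev
for the field generated by the cube roots).
-/

set_option autoImplicit false

namespace Pool.Agent.Results.MP_e996df_nt.PrimeTwistsEisenstein

open NumberField IsDedekindDomain WeierstrassCurve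
open Pool.Agent.TH841.NF.D (Sha)
open Pool.Agent.Y696 (NonsingRed)
open scoped Classical

/-- The curve `E_D : y² + D y = x³`. -/
def curve {K : Type} [Field K] (D : K) : WeierstrassCurve K := ⟨0, 0, D, 0, 0⟩

variable {K : Type} [Field K] [NumberField K]

/-- The equation `W` is minimal at every finite place `v`, the number `c v` is the index of the
group of the points of nonsingular reduction in `W(K_v)` (the Tamagawa number), and `c v = 1` for
all but finitely many `v`. -/
def IsTamagawa (W : WeierstrassCurve K) (c : HeightOneSpectrum (𝓞 K) → ℕ) : Prop :=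
  (∀ v : HeightOneSpectrum (𝓞 K),
    IsMinimal (v.adicCompletionIntegers K) (W.baseChange (v.adicCompletion K)) ∧
    ∃ H : AddSubgroup (W.baseChange (v.adicCompletion K)).toAffine.Point,
      (∀ P, P ∈ H ↔ NonsingRed Valued.v (W.baseChange (v.adicCompletion K)) P) ∧
      H.index = c v) ∧
  {v | c v ≠ 1}.Finite

/-- `E_D(K)` is finite and the `3`-primary part of `Ш(E_D / K)` is trivial. -/
def FiniteAndTrivial (D : 𝓞 K) : Prop :=
  Finite (curve (D : K)).toAffine.Point ∧ ∀ (n : ℕ) (x : Sha (curve (D : K))), 3 ^ n • x = 0 → x = 0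

/-- The order of the torsion subgroup of `E_D(K)`. -/
noncomputable def torsionOrder (D : 𝓞 K) : ℕ :=
  Nat.card (AddCommGroup.torsion (curve (D : K)).toAffine.Point)

/-- The torsion subgroup of `E_D(K)` is finite, of order divisible by `3` and not by `9`; `Lf` is an
entire function equal to `L(E_D / K, s)` for `Re s > 3 / 2`, and `Lf 1 ≠ 0` if `E_D(K)` is finite and
`Ш(E_D / K)[3^∞] = 0`; for every embedding `σ` of `K` and every
pair of periods `ω₁, ω₂` of a lattice `Λ` with `g₂ = 0`, `g₃ = - σ(D)²` (the period lattice of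
`E_D`; `A = |Im (conj ω₁ ω₂)|` is the area of a period parallelogram, and `2 A` is the factor of
`Ω(E_D)` at the complex place; such a `Λ` exists)
`Lf 1 = ρ · 2 A · ∏ c_v / (√|Δ(K)| |E_D(K)_tors|²)`, where `ρ` is integral at every valuation `v` of
`ℂ` above `3`, and a unit if and only if `E_D(K)` is finite and `Ш(E_D / K)[3^∞] = 0`. -/
def Law (D : 𝓞 K) : Prop :=
  Finite (AddCommGroup.torsion (curve (D : K)).toAffine.Point) ∧
  padicValNat 3 (torsionOrder D) = 1 ∧
  ∃ (Lf : ℂ → ℂ) (c : HeightOneSpectrum (𝓞 K) → ℕ),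
    Differentiable ℂ Lf ∧
    (∀ s : ℂ, 3 / 2 < s.re →
      LSeriesSummable ((fun n : ℤ => (n : ℂ)) ∘ (curve (D : K)).LFunction) s ∧
        Lf s = (curve (D : K)).LSeries s) ∧
    (FiniteAndTrivial D → Lf 1 ≠ 0) ∧
    IsTamagawa (curve (D : K)) c ∧
    ∀ σ : K →+* ℂ, (∃ Λ : PeriodPair, Λ.g₂ = 0 ∧ Λ.g₃ = -(σ D) ^ 2) ∧
      ∀ Λ : PeriodPair, Λ.g₂ = 0 → Λ.g₃ = -(σ D) ^ 2 → ∃ ρ : ℂ,
        Lf 1 = ρ * (((2 * |((starRingEnd ℂ) Λ.ω₁ * Λ.ω₂).im| : ℝ) : ℂ) * ((∏ᶠ w, c w : ℕ) : ℂ) /
          (((Real.sqrt |(discr K : ℝ)| : ℝ) : ℂ) * (torsionOrder D : ℂ) ^ 2)) ∧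
        ∀ (Γ : Type) [LinearOrderedCommGroupWithZero Γ] (v : Valuation ℂ Γ), v 3 < 1 →
          v ρ ≤ 1 ∧ (v ρ = 1 ↔ FiniteAndTrivial D)

/-- The cubic residue symbol of `x` modulo the prime `π` is `ω ^ a`. -/
def IsSymbol (ω π x : 𝓞 K) (a : ZMod 3) : Prop :=
  π ∣ x ^ (((Algebra.norm ℤ π).natAbs - 1) / 3) - ω ^ a.val

/-- `D` is the product of the powers `π i ^ e i`, `e i = 1, 2`, of the primes `π i`, which are `1`
modulo `3` and do not divide each other, and the cubic residue symbol of `π i` modulo `π j` is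
`ω ^ χ j i`. -/
def IsFactorization (ω D : 𝓞 K) (n : ℕ) (π : Fin n → 𝓞 K) (e : Fin n → ZMod 3)
    (χ : Fin n → Fin n → ZMod 3) : Prop :=
  (∀ i, Prime (π i) ∧ (3 : 𝓞 K) ∣ π i - 1 ∧ e i ≠ 0) ∧ D = ∏ i, π i ^ (e i).val ∧
  ∀ i j, i ≠ j → ¬ π j ∣ π i ∧ IsSymbol ω (π j) (π i) (χ j i)

/-- The Laplacian over the field with three elements: the entry at `(j, i)` is `e i * χ j i` for
`i ≠ j`, and the sum of each row is zero. -/
def laplacian {n : ℕ} (e : Fin n → ZMod 3) (χ : Fin n → Fin n → ZMod 3) :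
    Matrix (Fin n) (Fin n) (ZMod 3) :=
  Matrix.of fun j i => if j = i then -∑ l ∈ Finset.univ.erase j, e l * χ j l else e i * χ j i

/-- The proportion of the diagonal matrices whose sum with the Laplacian is nonsingular. -/
noncomputable def proportion {n : ℕ} (e : Fin n → ZMod 3) (χ : Fin n → Fin n → ZMod 3) : ℝ :=
  (Nat.card {u : Fin n → ZMod 3 // (laplacian e χ + Matrix.diagonal u).det ≠ 0} : ℝ) / 3 ^ n

/-- `ρ` is a prime of `𝓞 K`, `ρ = 1` modulo `3`, and the norm of `ρ` is `r` modulo `9`. -/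
def NewPrime (r : ℕ) (ρ : 𝓞 K) : Prop :=
  Prime ρ ∧ (3 : 𝓞 K) ∣ ρ - 1 ∧ (9 : ℤ) ∣ Algebra.norm ℤ ρ - r

theorem result (K : Type) [Field K] [NumberField K] [IsCyclotomicExtension {3} ℚ K]
    (D : 𝓞 K) (h3 : (3 : 𝓞 K) ∣ D - 1) (hcf : ∀ x : 𝓞 K, x ^ 3 ∣ D → IsUnit x)
    (m : ℕ) (hm : m = 1 ∨ m = 2) (r : ℕ) (hr : r = 1 ∨ r = 4 ∨ r = 7)
    (h9 : ¬ (9 : ℤ) ∣ Algebra.norm ℤ D * r ^ m - 1) :
    (∃ (ω : 𝓞 K) (n : ℕ) (π : Fin n → 𝓞 K) (e : Fin n → ZMod 3) (χ : Fin n → Fin n → ZMod 3),
      ω ^ 2 + ω + 1 = 0 ∧ IsFactorization ω D n π e χ) ∧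
    ∀ (ω : 𝓞 K) (n : ℕ) (π : Fin n → 𝓞 K) (e : Fin n → ZMod 3) (χ : Fin n → Fin n → ZMod 3),
      ω ^ 2 + ω + 1 = 0 → IsFactorization ω D n π e χ →
      (∀ ρ : 𝓞 K, NewPrime r ρ → ¬ ρ ∣ D → Law (D * ρ ^ m) ∧ ∃ χ' : Fin n → ZMod 3,
        (∀ k, IsSymbol ω (π k) ρ (χ' k)) ∧
        (FiniteAndTrivial (D * ρ ^ m) ↔
          (laplacian e χ - Matrix.diagonal fun k => (m : ZMod 3) * χ' k).det ≠ 0)) ∧
      Filter.Tendsto (fun X : ℕ =>
        ({ρ : 𝓞 K | Algebra.norm ℤ ρ ≤ X ∧ NewPrime r ρ ∧ Law (D * ρ ^ m) ∧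
            FiniteAndTrivial (D * ρ ^ m)}.ncard : ℝ) /
          ({ρ : 𝓞 K | Algebra.norm ℤ ρ ≤ X ∧ NewPrime r ρ}.ncard : ℝ)) Filter.atTop
        (nhds (proportion e χ)) ∧
      (2 / 3 : ℝ) ^ n ≤ proportion e χ ∧
      (n ≠ 0 → proportion e χ ≤ 1 - (2 / 3 : ℝ) ^ n / 2) :=
  T2h16.TE.final4 K D h3 hcf m hm r hr h9

end Pool.Agent.Results.MP_e996df_nt.PrimeTwistsEisenstein
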