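import Pool.Agent.T2h16.TT.Fin

/-!
# Abelian varieties of dimension `2 * 3 ^ (k - 1)` over `ℚ` with trivial 3-primary part of `Ш`: a
positive proportion of the prime twists of every member of a family

`K = ℚ(w)`, `w` a primitive third root of unity, `E : y² + y = x³`, `k ≥ 2`. For a character `χ` of
order `3 ^ k` that is a product of characters `lam j` of exact order `3 ^ k` modulo different
Eisenstein primes `π j = 1` modulo `3` with norm `1` modulo `3 ^ (k + 1)`, the abelian variety `A_χ`
over `K`, of dimension `3 ^ (k - 1)`, is the twist of `E ⊗ ℤ[ζ]` by `χ`; its restriction of scalars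
`B_χ` to `ℚ` has dimension `2 * 3 ^ (k - 1)`, and `Ш(B_χ / ℚ) = Ш(A_χ / K)`.

Let `χ₀` be ANY such character (`m ≥ 0` primes, no condition on the residue symbols or on the rank,
`Ш` or the `L`-function of `A_χ₀`), and let `e j`, `1` or `2`, be the exponent with which the cubic
residue symbol modulo `π j` is `lam j ^ 3 ^ (k - 1)`. Call admissible the primes `ρ = 1` modulo `3` of
norm `1` modulo `3 ^ (k + 1)`, ordered by the norm. For each of the two exponents `e'` an explicit set
of admissible primes `ρ` has relative density exactly `(2 / 3) c(χ₀)`, where `c(χ₀) ≥ (2 / 3) ^ m` is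
the proportion of the vectors `u` over the field with three elements such that `L + diag u` is
nonsingular, `L` being the Laplacian of the cubic residue symbols of the `π j` with the weights `e j`;
and the primes that are good for both exponents have a density, at least `(1 / 3) ^ (m + 1)`. Every
character `λ` modulo `ρ` of exact order `3 ^ k` has an exponent `e'`, and if `ρ` is good for it, then
for `χ = χ₀ λ`:

* the `L`-functions of the Hecke characters `ψ χ ^ t`, `t` prime to `3`, are entire and their values
  at `1` are `Ω (1 - ζ) ^ m` up to units above `3`; so `L(B_χ, 1) = Ω ^ (2 * 3 ^ (k - 1)) 3 ^ m` up to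
  a unit above `3`, and it is not zero;
* `B_χ(ℚ) = A_χ(K)` has order `3`, and the `3`-primary part of `Ш(B_χ / ℚ)` is zero.

The criterion for one character is that of the starting library (`MP_dfae13_nt.ThreePartTwists`); new
are the primes `ρ` and their density for every `χ₀`: by cubic reciprocity one new prime adds its own
residue symbols to the diagonal of the weighted Laplacian of `χ₀`; at least `2 ^ m` of the `3 ^ m`
perturbations of the diagonal are nonsingular; the condition modulo `9` is one on the cubic residue
symbol of `√-3` by the supplementary law; and the joint law of the symbols of the `π j` and of `√-3`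
among the primes of norm `1` modulo `3 ^ (k + 1)` follows from the theorem of Chebotarev and from the
independence of the cube roots over the field of the `3 ^ (k + 1)`-th roots of unity.

The definitions are in `Pool.Agent.Y715.T.St` and `Pool.Agent.T2h16.TT.St`.
-/

set_option autoImplicit false

open Pool.Agent.Y715.T.St T2h16.TT.St Filter Topology
open scoped Classical

/-- **A positive proportion of the prime twists of every member.** -/
theorem Pool.Agent.Results.MP_a43263_nt.PrimeTwistsThreePart.result (k m : ℕ) (hk : 2 ≤ k)
    -- the Eisenstein primes `π j` and the characters `lam j` of the given member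
    (π : Fin m → Eis) (hπ : ∀ j, Adm k (π j)) (hinj : Function.Injective π)
    (lam : ∀ j, MulChar (Eis ⧸ Ideal.span {π j}) ℂ) (hlam : ∀ j, orderOf (lam j) = 3 ^ k)
    (ζ : ℂ) (hζ : ζ ^ (3 ^ (k - 1)) = omega) :
    -- the exponents
    ∃ e : Fin m → ZMod 3, (∀ j, e j ≠ 0 ∧ IsExp k (lam j) (e j)) ∧
      -- the density of the new primes for each exponent
      (∀ e' : ZMod 3, e' ≠ 0 →
        Tendsto (fun X : ℕ => (count (Good k π e e') X : ℝ) / (count (Adm k) X : ℝ)) atTop
          (𝓝 (2 / 3 * ((Nat.card {u : Fin m → ZMod 3 //
            (lap π e + Matrix.diagonal u).det ≠ 0} : ℝ) / 3 ^ m)))) ∧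
      (2 / 3 : ℝ) ^ m ≤ (Nat.card {u : Fin m → ZMod 3 //
        (lap π e + Matrix.diagonal u).det ≠ 0} : ℝ) / 3 ^ m ∧
      -- the density of the new primes that are good for both exponents
      (∃ c : ℝ, (1 / 3 : ℝ) ^ (m + 1) ≤ c ∧
        Tendsto (fun X : ℕ => (count (fun ρ => ∀ e' : ZMod 3, e' ≠ 0 → Good k π e e' ρ) X : ℝ) /
          (count (Adm k) X : ℝ)) atTop (𝓝 c)) ∧
      -- the product of the `lam j` and a character of exact order `3 ^ k` modulo a new prime
      ∀ (ρ : Eis) (lam' : ∀ j : Fin (m + 1),
          MulChar (Eis ⧸ Ideal.span {(Fin.snoc π ρ : Fin (m + 1) → Eis) j}) ℂ),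
        Adm k ρ → (∀ (j : Fin m) (x : Eis), lam' j.castSucc (Ideal.Quotient.mk _ x) =
          lam j (Ideal.Quotient.mk _ x)) → orderOf (lam' (Fin.last m)) = 3 ^ k →
        ∃ e' : ZMod 3, e' ≠ 0 ∧ IsExp k (lam' (Fin.last m)) e' ∧
          (Good k π e e' ρ → Concl k (m + 1) (Fin.snoc π ρ) lam' ζ) :=
  T2h16.TT.main k m hk π hπ hinj lam hlam ζ hζ
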