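import Pool.Agent.T2h16.TX.Fin

/-!
# The 2-part of the formula of Birch and Swinnerton-Dyer for the prime twists of EVERY twist of
# `X_0(49)`: exact densities

`D ≥ 1` is any squarefree number with all prime factors `≡ 1 mod 4`, and `E_D` is the quadratic twist
by `D` of `X_0(49) : y² + x y = x³ - x² - 2 x - 1`.  The starting file `MP_4a9ea6_nt/TwoPartTwistsX49`
has a criterion for one `D` and the proportion `0.4194...` of the good `D` among all `D` of a class.
Here the number `D` is FIXED (any rank, any `Ш`), and only the twists `D p` by ONE more prime number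
`p ≡ 1 mod 4` are considered: thin families, with about `X / log X` members up to `X`.

`TwoPart N` says: `L(E_N, s)` is entire, `L(E_N, 1) ≠ 0`, `E_N(ℚ)` is finite, `Ш(E_N/ℚ)[2^∞] = 0` and
`#E_N(ℚ)_tors² L(E_N, 1) / (Ω ∏ c_p)` is a unit at all the primes above two (the full 2-part of the
formula).  Let `b` be the number of the prime factors of `D` which split in `ℚ(√-7)`.

* For each `p ≡ 1 mod 4`, `p ∤ D`: `TwoPart (D p)` holds exactly when `E_{D p}(ℚ)` is finite and
  `Ш(E_{D p}/ℚ)` has no element of order two, and also exactly when the matrix `mat D` over `𝔽₂` of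
  size `b`, modified on the diagonal by the quadratic symbols of `p` (for `p` inert in `ℚ(√-7)`), and
  then bordered by these symbols and by a corner (for `p` split), is not singular.
* Among the `p ≡ r mod 8` (`r = 1` or `5`) which are inert in `ℚ(√-7)`, the proportion of the `p` with
  `TwoPart (D p)` is exactly `c(D) = #{v : det (mat D + diag v) ≠ 0} / 2^b`, and
  `2^{-b} ≤ c(D) ≤ 1 - 2^{-b}` (upper bound for `b ≥ 1`; `c(D) = 1` for `b = 0`).
* Among the `p ≡ r mod 8` which split in `ℚ(√-7)` it is exactly `c'(D)`, the proportion of the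
  nonsingular ones among the `2^{b+1}` borderings of `mat D`, and
  `2^{-b-1} ≤ c'(D) ≤ 1 - 2^{-b-1}`.

So a positive proportion of the primes in each of the four classes is good for every `D`, also if the
rank of `E_D` is positive or `Ш(E_D)[2] ≠ 0`, and in all cases but one (`b = 0`, `p` inert) a positive
proportion is not.

Proof: the criterion for one number; quadratic reciprocity; and the joint law of the quadratic
symbols of the prime factors of `D` and of the quartic symbol of `-7` in the four classes, by the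
density theorem of Chebotarev for `ℚ(√-1, √2, √r (r ∣ D), (-7)^{1/4})` (the commutator of an
automorphism that moves `√-7` and one that moves `√-1` moves only the fourth root).  The determinants
of all diagonal modifications add up to `1`, so that an odd number of them is not singular.
The tools in `Pool/Agent/Q283/TW` (helper283) are used.
-/

set_option autoImplicit false

open NumberField NumberField.InfinitePlace IsDedekindDomain WeierstrassCurve MeasureTheory

namespace Pool.Agent.Results.MP_9c97e9_nt.PrimeTwistsTwoPart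

open Pool.Agent.TH841.NF.D (Sha)
open Pool.Agent.TH841.SH.D (Pt)

/-- The quadratic twist by `D ≡ 1 mod 4` of `X_0(49) : y² + x y = x³ - x² - 2 x - 1`. -/
def twist (D : ℕ) : WeierstrassCurve ℤ := ⟨1, -((3 * D + 1) / 4), 0, -2 * D ^ 2, -D ^ 3⟩

/-- The curve over `ℚ`. -/
abbrev E (D : ℕ) : WeierstrassCurve ℚ := (twist D).map (Int.castRingHom ℚ)

/-- `W⁰(ℚ_v)`, the group of the points of `W` over the completion `ℚ_v` with nonsingular reduction:
the point at infinity and the points `(x, y)` where `x` is not integral, or one of the partial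
derivatives of `y² + a₁ x y + a₃ y - x³ - a₂ x² - a₄ x - a₆` is a unit at `(x, y)`.
Here `Pt W ℚ_v` is the group of the points of `W` over `ℚ_v`. -/
noncomputable def nonsing (W : WeierstrassCurve ℚ) (v : HeightOneSpectrum (𝓞 ℚ)) :
    AddSubgroup (Pt W (v.adicCompletion ℚ)) :=
  AddSubgroup.closure {P | ∀ x y h, P = Affine.Point.some x y h →
    1 < Valued.v x ∨
    Valued.v ((W.baseChange (v.adicCompletion ℚ)).a₁ * y -
      (3 * x ^ 2 + 2 * (W.baseChange (v.adicCompletion ℚ)).a₂ * x +
        (W.baseChange (v.adicCompletion ℚ)).a₄)) = 1 ∨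
    Valued.v (2 * y + (W.baseChange (v.adicCompletion ℚ)).a₁ * x +
      (W.baseChange (v.adicCompletion ℚ)).a₃) = 1}

/-- The Tamagawa number `c_v = [W(ℚ_v) : W⁰(ℚ_v)]` of a minimal equation (the equation of `E_D` is
minimal, see the starting file). -/
noncomputable def c (W : WeierstrassCurve ℚ) (v : HeightOneSpectrum (𝓞 ℚ)) : ℕ :=
  (nonsing W v).index

/-- The product of the Tamagawa numbers. -/
noncomputable def Tam (W : WeierstrassCurve ℚ) : ℕ := ∏ᶠ v : HeightOneSpectrum (𝓞 ℚ), c W v

/-- `4 x³ + b₂ x² + 2 b₄ x + b₆ = (2 y + a₁ x + a₃)²`. -/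
def cubic (W : WeierstrassCurve ℤ) (x : ℝ) : ℝ := 4 * x ^ 3 + W.b₂ * x ^ 2 + 2 * W.b₄ * x + W.b₆

/-- `Ω = ∫_{W(ℝ)} |ω|` with `ω = dx / (2 y + a₁ x + a₃)`, as an integral over `x`: two real points lie
over each `x` with `cubic x > 0`. -/
noncomputable def Omega (W : WeierstrassCurve ℤ) : ℝ :=
  2 * ∫ x in {x : ℝ | 0 < cubic W x}, 1 / √(cubic W x)

open Classical in
/-- The order of the torsion subgroup of `W(K)`. -/
noncomputable def torsOrder {K : Type} [Field K] (W : WeierstrassCurve K) : ℕ :=
  Nat.card (AddCommGroup.torsion W.toAffine.Point)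

/-- The order of the Tate-Shafarevich group predicted by the formula, for the value `l` of the
L-function of `E_D` at `s = 1`: `#E_D(ℚ)_tors² l / (Ω ∏ c_v)`. -/
noncomputable def anOrder (D : ℕ) (l : ℂ) : ℂ :=
  l * (torsOrder (E D) : ℂ) ^ 2 / ((Omega (twist D) : ℝ) * (Tam (E D) : ℂ))

/-- `D` is squarefree and all its prime factors are `≡ 1 mod 4`. -/
def Adm (D : ℕ) : Prop := Squarefree D ∧ ∀ p ∈ D.primeFactors, p % 4 = 1

open Classical in
/-- The prime factors of `D` which split in `ℚ(√-7)`. -/
noncomputable def split (D : ℕ) : Finset ℕ := D.primeFactors.filter fun p => IsSquare (-7 : ZMod p)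

open Classical in
/-- `1` if `m` is not a square modulo `p`, and `0` if it is -/
noncomputable def nonsq (p m : ℕ) : ZMod 2 := if IsSquare (m : ZMod p) then 0 else 1

open Classical in
/-- `1` if `-7` is not a fourth power modulo `p`, and `0` if it is -/
noncomputable def nonfourth (p : ℕ) : ZMod 2 := if ∃ y : ZMod p, y ^ 4 = -7 then 0 else 1

/-- The matrix over the field with two elements, with rows and columns indexed by the prime factors of
`D` which split in `ℚ(√-7)`: the entry at `(i, j)` is `nonsq i j` for `i ≠ j`, and the entry at `(i, i)`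
is the sum of `nonfourth i` and of the `nonsq i l` for all the prime factors `l ≠ i` of `D`. -/
noncomputable def mat (D : ℕ) : Matrix (split D) (split D) (ZMod 2) := Matrix.of fun i j =>
  if i = j then nonfourth i + ∑ l ∈ D.primeFactors.erase i, nonsq i l else nonsq i j

/-- `mat D` with `v` added to the diagonal, bordered by `v` (as a new column and as a new row) and by
the corner `d`. -/
noncomputable def border (D : ℕ) (v : split D → ZMod 2) (d : ZMod 2) :
    Matrix (split D ⊕ Unit) (split D ⊕ Unit) (ZMod 2) :=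
  Matrix.fromBlocks (mat D + Matrix.diagonal v) (Matrix.of fun i _ => v i)
    (Matrix.of fun _ j => v j) (Matrix.of fun _ _ => d)

/-- `c(D)`: the proportion of the nonsingular matrices among the `mat D + diag v`. -/
noncomputable def inertShare (D : ℕ) : ℝ :=
  (Nat.card {v : split D → ZMod 2 // (mat D + Matrix.diagonal v).det ≠ 0} : ℝ) /
    2 ^ (split D).card

/-- `c'(D)`: the proportion of the nonsingular matrices among the borderings of `mat D`. -/
noncomputable def splitShare (D : ℕ) : ℝ :=
  (Nat.card {x : (split D → ZMod 2) × ZMod 2 // (border D x.1 x.2).det ≠ 0} : ℝ) /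
    2 ^ ((split D).card + 1)

/-- The full 2-part of the conjecture in analytic rank zero: `E_D(ℚ)` is finite, the 2-primary part
of `Ш` is zero, `L(E_D, s)` has an entire continuation `Λ` with `Λ 1 ≠ 0`, and the predicted order of
`Ш` is a unit at all the primes above two. -/
def TwoPart (D : ℕ) : Prop :=
  Finite (E D).toAffine.Point ∧ (∀ (n : ℕ) (x : Sha (E D)), 2 ^ n • x = 0 → x = 0) ∧
    ∃ Λ : ℂ → ℂ, Differentiable ℂ Λ ∧ (∀ s : ℂ, 2 < s.re → Λ s = (E D).LSeries s) ∧ Λ 1 ≠ 0 ∧
      ∃ m : ℤ, Odd m ∧ _root_.IsIntegral ℤ (m * anOrder D (Λ 1)) ∧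
        _root_.IsIntegral ℤ (m * (anOrder D (Λ 1))⁻¹)

/-- The proportion of the prime numbers with the property `T` among those with the property `S`
tends to `t`. -/
def Proportion (S T : ℕ → Prop) (t : ℝ) : Prop :=
  Filter.Tendsto (fun X : ℕ => ({p : ℕ | p.Prime ∧ p ≤ X ∧ S p ∧ T p}.ncard : ℝ) /
    ({p : ℕ | p.Prime ∧ p ≤ X ∧ S p}.ncard : ℝ)) Filter.atTop (nhds t)

open Classical in
/-- **The 2-part of the formula for the prime twists of every twist of `X_0(49)` by a product of
primes `≡ 1 mod 4`.** -/
theorem result (D : ℕ) (hD : Adm D) :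
    (∀ p : ℕ, p.Prime → p % 4 = 1 → ¬ p ∣ D →
      (TwoPart (D * p) ↔
        Finite (E (D * p)).toAffine.Point ∧ ∀ x : Sha (E (D * p)), x + x = 0 → x = 0) ∧
      (¬ IsSquare (-7 : ZMod p) → (TwoPart (D * p) ↔
        (mat D + Matrix.diagonal fun q : split D => nonsq p q).det ≠ 0)) ∧
      (IsSquare (-7 : ZMod p) → (TwoPart (D * p) ↔
        (border D (fun q : split D => nonsq p q)
          (∑ l ∈ D.primeFactors, nonsq p l + nonfourth p)).det ≠ 0))) ∧
    (∀ r : ℕ, r = 1 ∨ r = 5 →
      Proportion (fun p => p % 8 = r ∧ ¬ IsSquare (-7 : ZMod p)) (fun p => TwoPart (D * p))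
        (inertShare D) ∧
      Proportion (fun p => p % 8 = r ∧ IsSquare (-7 : ZMod p)) (fun p => TwoPart (D * p))
        (splitShare D)) ∧
    (1 / 2 : ℝ) ^ (split D).card ≤ inertShare D ∧
    ((split D).card ≠ 0 → inertShare D ≤ 1 - (1 / 2 : ℝ) ^ (split D).card) ∧
    (1 / 2 : ℝ) ^ ((split D).card + 1) ≤ splitShare D ∧
    splitShare D ≤ 1 - (1 / 2 : ℝ) ^ ((split D).card + 1) := by
  have hcard : Fintype.card (split D) = (split D).card := Fintype.card_coe _
  have h1 := T2h16.TX.diag_bounds (mat D)
  have h2 := T2h16.TX.bord_bounds (mat D)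
  rw [hcard] at h1 h2
  refine ⟨fun p hp h4 hpD => ?_, fun r hr => ⟨?_, ?_⟩, h1.1, h1.2, h2.1, h2.2⟩
  · obtain ⟨a, b⟩ := T2h16.TX.crit hD hp h4 hpD
    have hA := T2h16.TX.adm_mul hD hp h4 hpD
    have hc := (Pool.Agent.Results.MP_4a9ea6_nt.TwoPartTwistsX49.core hA).2.2.2.1
    have ht := Pool.Agent.Results.MP_4a9ea6_nt.TwoPartTwistsX49.two_iff hA
    exact ⟨ht.trans hc.symm, a, b⟩
  · have h := T2h16.TX.lim_inert hD hr
    unfold T2h16.TX.cnt at h
    refine h.congr fun X => ?_
    simp only [and_assoc]
    rfl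
  · have h := T2h16.TX.lim_split hD hr
    unfold T2h16.TX.cnt at h
    refine h.congr fun X => ?_
    simp only [and_assoc]
    rfl

end Pool.Agent.Results.MP_9c97e9_nt.PrimeTwistsTwoPart
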