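import Pool.Agent.Y699.Pos
import Pool.Agent.T2h16.Q4.Plc
import Pool.Agent.T2h16.Q4.Ex

/-!
# The conjecture of Bloch and Kato on the Abel–Jacobi map for diagonal quartic threefolds and
# quartic double solids over `ℚ(i)`, `p = 2`

Let `K = ℚ(i)` and `a = (a_0, …, a_4)`, `a_i ∈ ℤ[i]` nonzero.  We consider the smooth Fano threefolds

* `X_a : a_0 x_0⁴ + a_1 x_1⁴ + a_2 x_2⁴ + a_3 x_3⁴ + a_4 x_4⁴ = 0` in `ℙ⁴` (`b_3 = 60`), and
* `X_a : a_0 x_0² + a_1 x_1⁴ + a_2 x_2⁴ + a_3 x_3⁴ + a_4 x_4⁴ = 0` in `ℙ(2,1,1,1,1)`, the double covers of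
  `ℙ³` (`b_3 = 20`).

Let `c` run through the vectors with `c_i ∈ {1,2,3}` (and `c_0 = 2` for the double covers) and
`∑ c_i = 8`; there are `30` (or `10`) of them.  Put `δ_c = (-1)^{#{i : c_i = 3}} ∏ a_i^{c_i}`, and let `E_δ`
be the elliptic curve `y² = x³ + δ x`.

* `Decomposition`: at all the places `v` of `K` not dividing `2 ∏ a_i` the trace of the Frobenius (and
  of its powers) on `H³(X_a)` is the sum over all the `c` of `N(v)` times the trace on `H¹(E_{δ_c})`.
  So by Faltings (not formalized) `V = H³(X_a, ℚ_2(2))` is the direct sum of the `V_2 E_{δ_c}` and the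
  intermediate Jacobian of `X_a` is isogenous over `K` to the product of the `E_{δ_c}`.
* Let `D ≡ 1` modulo `2 + 2 i` be squarefree with `N(D) ≡ 5` modulo `8` and without a splitting: `D` is
  not a product of two factors `≡ 1` modulo `2 + 2 i`, different from `1`, each of them a square modulo
  all the prime factors of the other one.  The number of these `D` with `N(D) ≤ X` is `≥ c X`.
* For all these `D`, and all the forms `a` for which every `δ_c` is, up to a fourth power, `± D s²`
  (`s` a product of primes dividing `D`), `- D²`, or a unit: for all the `c` the groups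
  `E_{δ_c}(K) ⊗ ℚ_2` and `H¹_f(K, V_2 E_{δ_c})` are zero.
* Every factorization `D = D₁ D₂` gives, with `T = D₁ D₂³` (so `T = D₁ / D₂` up to fourth powers), the
  threefold `x_0⁴ + x_1⁴ + x_2⁴ + T x_3⁴ + T³ x_4⁴ = 0` and the double solid
  `i x_0² + T x_1⁴ + x_2⁴ + x_3⁴ + x_4⁴ = 0`, which are of this kind.

As `CH²(X_a)_0 ⊗ ℚ` is `J(K) ⊗ ℚ`, `J` the intermediate Jacobian (Bloch–Srinivas, Murre; not
formalized), `CH²(X_a)_0 ⊗ ℚ_2 = 0 = H¹_f(K, V)`: the conjecture holds for `M = h³(X_a)(2)` and `p = 2`.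

`H1f 2 W` (`Pool.Agent.Y667.BKP.H1f`, by helper667) is the group of the classes of the continuous
cocycles of the absolute Galois group with values in `V_2 W = T_2 W ⊗ ℚ_2` whose restriction to the
completion at every place is in the image of the Kummer map; this is the condition of Bloch and Kato.

The method: all these curves have complex multiplication by `ℤ[i]`; the descent by `1 + i` has values in
`Kˣ / Kˣ²`.  At the primes dividing `D` the local images are generated by `D`, for all the twists above,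
and at `1 + i` and the other primes the classes have even valuation, so that the Selmer groups of the
different curves are the kernel of one and the same matrix of quadratic residue symbols.  The count of
the `D` is by helper699, the descent by an isogeny of degree two by helper682.
-/

set_option autoImplicit false

namespace Pool.Agent.Results.MP_009fd8_ag.QuarticThreefoldsSelmer

open scoped Classical
open NumberField IsDedekindDomain
open Pool.Agent.Y667.BKP (H1f)

/-- the degrees of the quartic threefolds -/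
def threefold : Fin 5 → ℕ := ![4, 4, 4, 4, 4]

/-- the degrees of the double covers of `ℙ³` -/
def doubleSolid : Fin 5 → ℕ := ![2, 4, 4, 4, 4]

/-- The solutions, not all zero, of `∑ a i x i ^ d i = 0` in the field `F`.  They are the points of the
affine cone without the vertex, `#F - 1` of them over every point of `X_a(F)`. -/
def solutions (d : Fin 5 → ℕ) {F : Type} [Field F] (a : Fin 5 → F) : Set (Fin 5 → F) :=
  {x | x ≠ 0 ∧ ∑ i, a i * x i ^ d i = 0}

/-- The vectors `c` with `c i ∈ {1, 2, 3}` if `d i = 4` and `c i = 2` if not, and `∑ c i = 8`. -/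
def Types (d : Fin 5 → ℕ) : Finset (Fin 5 → ℕ) :=
  (Fintype.piFinset fun i => if d i = 4 then {1, 2, 3} else {2}).filter fun c => ∑ i, c i = 8

/-- `δ_c = (-1)^{#{i : c i = 3}} ∏ a i ^ c i`. -/
def twist (a : Fin 5 → GaussianInt) (c : Fin 5 → ℕ) : GaussianInt :=
  (-1) ^ (Finset.univ.filter fun i => c i = 3).card * ∏ i, a i ^ c i

/-- The decomposition of the cohomology.  For every place `v` of `K` that does not divide `2 ∏ a i`: let
`β c` and its complex conjugate be the eigenvalues of the Frobenius of the curve `y² = x³ + δ_c x` over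
the residue field of `v`, which has `N` elements.  Then for all `r` and all the fields `F` with `N ^ r`
elements containing the residue field of `v` (by `f`) the number of the nonzero solutions in `F` of the
equation of `X_a` is `(#F - 1) (1 + #F + #F² + #F³ - ∑ ((N β c)^r + (N conj (β c))^r))`. -/
def Decomposition {K : Type} [Field K] [NumberField K] (e : GaussianInt ≃+* 𝓞 K)
    (d : Fin 5 → ℕ) (a : Fin 5 → GaussianInt) : Prop :=
  ∀ v : HeightOneSpectrum (𝓞 K), e (2 * ∏ i, a i) ∉ v.asIdeal →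
    ∃ β : (Fin 5 → ℕ) → ℂ,
      (∀ c, β c * (starRingEnd ℂ) (β c) = Ideal.absNorm v.asIdeal ∧
        (Nat.card {P : (𝓞 K ⧸ v.asIdeal) × (𝓞 K ⧸ v.asIdeal) //
          P.2 ^ 2 = P.1 ^ 3 + Ideal.Quotient.mk v.asIdeal (e (twist a c)) * P.1} : ℂ) =
            Ideal.absNorm v.asIdeal - (β c + (starRingEnd ℂ) (β c))) ∧
      ∀ (F : Type) [Field F] [Finite F] (f : 𝓞 K →+* F) (r : ℕ), RingHom.ker f = v.asIdeal →
        Nat.card F = Ideal.absNorm v.asIdeal ^ r →
        ((solutions d fun i => f (e (a i))).ncard : ℂ) = (Nat.card F - 1) *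
          (∑ i ∈ Finset.range 4, (Nat.card F : ℂ) ^ i -
            ∑ c ∈ Types d, (((Ideal.absNorm v.asIdeal : ℂ) * β c) ^ r +
                ((Ideal.absNorm v.asIdeal : ℂ) * (starRingEnd ℂ) (β c)) ^ r))

/-- The curve `E_δ : y² = x³ + δ x` over `K`. -/
noncomputable def curve {K : Type} [Field K] [NumberField K] (e : GaussianInt ≃+* 𝓞 K)
    (δ : GaussianInt) : WeierstrassCurve K :=
  ⟨0, 0, 0, algebraMap (𝓞 K) K (e δ), 0⟩

/-- `W` is an elliptic curve, and `W(K) ⊗ ℚ_2` and `H¹_f(K, V_2 W)` are zero. -/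
def BothZero {K : Type} [Field K] [NumberField K] (W : WeierstrassCurve K) : Prop :=
  W.IsElliptic ∧ (∀ x : TensorProduct ℤ W.toAffine.Point ℚ_[2], x = 0) ∧ ∀ x : H1f 2 W, x = 0

/-- `z` is `1` modulo `2 + 2 i`. -/
def Primary (z : GaussianInt) : Prop := (⟨2, 2⟩ : GaussianInt) ∣ z - 1

/-- `z` is a square modulo all the prime divisors of `w`. -/
def SquareMod (z w : GaussianInt) : Prop := ∀ π : GaussianInt, Prime π → π ∣ w → ∃ y, π ∣ z - y ^ 2

/-- `D ≡ 1` modulo `2 + 2 i` is squarefree, `N(D) ≡ 5` modulo `8`, and `D` has no splitting. -/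
def Good (D : GaussianInt) : Prop :=
  Primary D ∧ Squarefree D ∧ D.norm % 8 = 5 ∧
    ∀ d d' : GaussianInt, Primary d → Primary d' → D = d * d' → SquareMod d' d → SquareMod d d' →
      d = 1 ∨ d' = 1

/-- `δ` is, up to a fourth power `z⁴`, one of `± D s²` (`s` divides a power of `D`), `- D²`, or a
unit. -/
def Allowed (D δ : GaussianInt) : Prop :=
  ∃ z : GaussianInt, z ≠ 0 ∧ ((∃ (s : GaussianInt) (n : ℕ), s ∣ D ^ n ∧
    (δ = D * s ^ 2 * z ^ 4 ∨ δ = -(D * s ^ 2 * z ^ 4))) ∨ δ = -(D ^ 2 * z ^ 4) ∨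
    ∃ u : GaussianInt, IsUnit u ∧ δ = u * z ^ 4)

/-- The forms that belong to `D`. -/
def IsForm (D : GaussianInt) (d : Fin 5 → ℕ) (a : Fin 5 → GaussianInt) : Prop :=
  (d = threefold ∨ d = doubleSolid) ∧ (∀ i, a i ≠ 0) ∧ ∀ c ∈ Types d, Allowed D (twist a c)

open Pool.Agent.T2h16.Q4 in
lemma types_eq {d : Fin 5 → ℕ} (h : d = threefold ∨ d = doubleSolid) :
    (∀ i, d i = 2 ∨ d i = 4) ∧ Types d = Ty d := by
  have hd : ∀ i, d i = 2 ∨ d i = 4 := by
    intro i
    rcases h with h | h <;> rw [h] <;> fin_cases i <;> decide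
  refine ⟨hd, ?_⟩
  unfold Types Ty
  congr 1
  congr 1
  funext i
  rcases hd i with h1 | h1
  · rw [h1]; decide
  · rw [h1]; decide

lemma good_iff (D : GaussianInt) : Good D ↔ Pool.Agent.Y699.Good D := by
  have hP : ∀ z, Primary z ↔ Pool.Agent.H304R2.EC.A1.prim z := fun z =>
    (Pool.Agent.W164.RC.prim_iff_dvd z).symm
  have key : ∀ π a : GaussianInt, Pool.Agent.Y699.qr π a = 1 → ∃ b, π ∣ a - b ^ 2 := by
    intro π a h
    by_contra hcon
    unfold Pool.Agent.Y699.qr at h
    rw [if_neg hcon] at h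
    split_ifs at h
    omega
  constructor
  · rintro ⟨h1, h2, h3, h4⟩
    have hps : Pool.Agent.Y699.PS D := ⟨(hP D).1 h1, h2⟩
    refine ⟨hps, h3, fun d d' hd hd' hdd k1 k2 => h4 d d' ((hP d).2 hd) ((hP d').2 hd') hdd ?_ ?_⟩
    · have hd0 : d ≠ 0 := by rintro rfl; exact h2.ne_zero (by rw [hdd, zero_mul])
      intro ρ hρ hρd
      have hodd : ρ.norm % 2 = 1 := Pool.Agent.Y699.odd_of_dvd (hρd.trans ⟨d', hdd⟩) (by omega)
      obtain ⟨π, hπ, hass⟩ := Pool.Agent.Y699.exists_PP hρ hodd
      have h5 := k1 π ((Pool.Agent.Y699.mem_PD hd0).2 ⟨hπ, hass.dvd.trans hρd⟩)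
      obtain ⟨b, hb⟩ := key _ _ h5
      exact ⟨b, hass.symm.dvd.trans hb⟩
    · have hd0 : d' ≠ 0 := by rintro rfl; exact h2.ne_zero (by rw [hdd, mul_zero])
      intro ρ hρ hρd
      have hodd : ρ.norm % 2 = 1 := Pool.Agent.Y699.odd_of_dvd (n := D)
        (hρd.trans ⟨d, by rw [hdd, mul_comm]⟩) (by omega)
      obtain ⟨π, hπ, hass⟩ := Pool.Agent.Y699.exists_PP hρ hodd
      have h5 := k2 π ((Pool.Agent.Y699.mem_PD hd0).2 ⟨hπ, hass.dvd.trans hρd⟩)
      obtain ⟨b, hb⟩ := key _ _ h5
      exact ⟨b, hass.symm.dvd.trans hb⟩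
  · rintro ⟨h1, h3, h4⟩
    have h2 := h1.sqf
    refine ⟨(hP D).2 h1.prm, h2, h3, fun d d' hd hd' hdd k1 k2 =>
      h4 d d' ((hP d).1 hd) ((hP d').1 hd') hdd ?_ ?_⟩
    · have hd0 : d ≠ 0 := by rintro rfl; exact h2.ne_zero (by rw [hdd, zero_mul])
      intro π hπ
      obtain ⟨hπ1, hπ2⟩ := (Pool.Agent.Y699.mem_PD hd0).1 hπ
      have h5 : ¬ π ∣ d' := by
        intro h6
        exact hπ1.pr.not_isUnit (h2 π (by rw [hdd]; exact mul_dvd_mul hπ2 h6))
      unfold Pool.Agent.Y699.qr
      rw [if_neg h5, if_pos (k1 π hπ1.pr hπ2)]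
    · have hd0 : d' ≠ 0 := by rintro rfl; exact h2.ne_zero (by rw [hdd, mul_zero])
      intro π hπ
      obtain ⟨hπ1, hπ2⟩ := (Pool.Agent.Y699.mem_PD hd0).1 hπ
      have h5 : ¬ π ∣ d := by
        intro h6
        exact hπ1.pr.not_isUnit (h2 π (by rw [hdd]; exact mul_dvd_mul h6 hπ2))
      unfold Pool.Agent.Y699.qr
      rw [if_neg h5, if_pos (k2 π hπ1.pr hπ2)]

/-- **Main theorem.**  At least `c X` of the Gaussian integers of norm at most `X` are good (`c > 0`, `X`
large).  For every good `D` and `K = ℚ(i)` (every number field `K` with an isomorphism `e` of `ℤ[i]` with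
its ring of integers) and all the quartic threefolds and quartic double solids `X_a` that belong to `D`:
the cohomology decomposes, and `E(K) ⊗ ℚ_2 = 0 = H¹_f(K, V_2 E)` for all the curves `E = E_{δ_c}`.  Every
factorization `D = D₁ D₂` gives a threefold and a double solid that belong to `D`. -/
theorem result :
    (∃ c : ℝ, 0 < c ∧ ∃ X₀ : ℕ, ∀ X : ℕ, X₀ ≤ X →
      c * X ≤ (({D : GaussianInt | Good D ∧ D.norm ≤ X}.ncard : ℕ) : ℝ)) ∧
    ∀ D : GaussianInt, Good D →
      (∀ D₁ D₂ : GaussianInt, D = D₁ * D₂ →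
        IsForm D threefold ![1, 1, 1, D₁ * D₂ ^ 3, (D₁ * D₂ ^ 3) ^ 3] ∧
        IsForm D doubleSolid ![⟨0, 1⟩, D₁ * D₂ ^ 3, 1, 1, 1]) ∧
      ∀ (K : Type) [Field K] [NumberField K] (e : GaussianInt ≃+* 𝓞 K) (d : Fin 5 → ℕ)
        (a : Fin 5 → GaussianInt), IsForm D d a →
          Decomposition e d a ∧ ∀ c ∈ Types d, BothZero (curve e (twist a c)) := by
  constructor
  · obtain ⟨c, hc, X₀, h⟩ := Pool.Agent.Y699.positive
    refine ⟨c, hc, X₀, fun X hX => (h X hX).trans ?_⟩
    have hfin : {D : GaussianInt | Good D ∧ D.norm ≤ X}.Finite := by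
      refine (Pool.Agent.Y699.fin_norm_le X).subset ?_
      rintro D ⟨-, h⟩
      have h0 := GaussianInt.norm_nonneg D
      show D.norm.natAbs ≤ X
      omega
    have h1 : ((Pool.Agent.Y699.GB X : Finset GaussianInt) : Set GaussianInt) ⊆
        {D : GaussianInt | Good D ∧ D.norm ≤ X} := by
      intro D hD
      have h2 : D ∈ Pool.Agent.Y699.SB X ∧ Pool.Agent.Y699.Good D := by
        have h0 := Finset.mem_coe.1 hD
        unfold Pool.Agent.Y699.GB at h0
        exact Finset.mem_filter.1 h0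
      have h3 := (Pool.Agent.Y699.mem_SB).1 h2.1
      refine ⟨(good_iff D).2 h2.2, ?_⟩
      have h4 : D.norm.natAbs ≤ X := h3.1
      omega
    have h5 := Set.ncard_le_ncard h1 hfin
    rw [Set.ncard_coe_finset] at h5
    exact_mod_cast h5
  · intro D hD
    have hg := (good_iff D).1 hD
    have hD0 := hg.ps.ne
    refine ⟨fun D₁ D₂ hDD => ?_, fun K _ _ e d a ha => ?_⟩
    · have h1 : D₁ ≠ 0 := by rintro rfl; exact hD0 (by rw [hDD, zero_mul])
      have h2 : D₂ ≠ 0 := by rintro rfl; exact hD0 (by rw [hDD, mul_zero])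
      have hT : D₁ * D₂ ^ 3 ≠ 0 := mul_ne_zero h1 (pow_ne_zero 3 h2)
      have hT3 : (D₁ * D₂ ^ 3) ^ 3 ≠ 0 := pow_ne_zero 3 hT
      constructor
      · refine ⟨Or.inl rfl, fun i => ?_, fun c hc => ?_⟩
        · fin_cases i
          · exact one_ne_zero
          · exact one_ne_zero
          · exact one_ne_zero
          · exact hT
          · exact hT3
        · rw [(types_eq (Or.inl rfl)).2] at hc
          obtain ⟨h3, h4⟩ := Pool.Agent.T2h16.Q4.mem_Ty.1 hc
          exact Pool.Agent.T2h16.Q4.ex3 hDD hD0 (fun i => Pool.Agent.T2h16.Q4.Cs_mem (h3 i)) h4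
      · refine ⟨Or.inr rfl, fun i => ?_, fun c hc => ?_⟩
        · fin_cases i
          · intro h3
            have h4 := congrArg Zsqrtd.im h3
            exact one_ne_zero h4
          · exact hT
          · exact one_ne_zero
          · exact one_ne_zero
          · exact one_ne_zero
        · rw [(types_eq (Or.inr rfl)).2] at hc
          obtain ⟨h3, h4⟩ := Pool.Agent.T2h16.Q4.mem_Ty.1 hc
          have h0 : c 0 = 2 := by
            have h5 := h3 0
            have h6 : Pool.Agent.T2h16.Q4.Cs (doubleSolid 0) = {2} := by decide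
            rw [h6] at h5
            exact Finset.mem_singleton.1 h5
          exact Pool.Agent.T2h16.Q4.exD hDD hD0 (fun i => Pool.Agent.T2h16.Q4.Cs_mem (h3 i)) h0 h4
    · obtain ⟨hd, ha0, hA⟩ := ha
      obtain ⟨hd2, hTy⟩ := types_eq hd
      refine ⟨fun v hv => ?_, fun c hc => ?_⟩
      · have h2 : (2 : 𝓞 K) ∉ v.asIdeal := by
          intro h3
          apply hv
          rw [map_mul, map_ofNat]
          exact Ideal.mul_mem_right _ _ h3
        have h3 : ∀ i, e (a i) ∉ v.asIdeal := by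
          intro i h4
          apply hv
          rw [map_mul, map_prod]
          exact Ideal.mul_mem_left _ _ (Ideal.mem_of_dvd v.asIdeal
            (Finset.dvd_prod_of_mem (fun i => e (a i)) (Finset.mem_univ i)) h4)
        rw [hTy]
        exact Pool.Agent.T2h16.Q4.place e v h2 hd2 h3
      · have hal := hA c hc
        have hne : twist a c ≠ 0 := Pool.Agent.T2h16.Q4.allowed_ne hD0 hal
        have hne' : algebraMap (𝓞 K) K (e (twist a c)) ≠ 0 :=
          Pool.Agent.Y715.Z.em0_ne e hne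
        have hT : Pool.Agent.Y682.IsT (curve e (twist a c)) 0
            (Pool.Agent.Y715.Z.em0 e (twist a c)) :=
          { h1 := rfl, h2 := rfl, h3 := rfl, h4 := rfl, h6 := rfl, hB := hne'
            hD := by
              rw [zero_pow two_ne_zero, zero_sub, neg_ne_zero]
              exact mul_ne_zero (by norm_num) hne' }
        refine ⟨?_, Pool.Agent.T2h16.Q4.allowed_zero e hg hal hT⟩
        refine ⟨?_⟩
        rw [isUnit_iff_ne_zero]
        have h5 : (curve e (twist a c)).Δ = -64 * (algebraMap (𝓞 K) K (e (twist a c))) ^ 3 := by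
          simp [curve, WeierstrassCurve.Δ, WeierstrassCurve.b₂, WeierstrassCurve.b₄,
            WeierstrassCurve.b₆, WeierstrassCurve.b₈]
          ring
        rw [h5]
        exact mul_ne_zero (by norm_num) (pow_ne_zero 3 hne')

end Pool.Agent.Results.MP_009fd8_ag.QuarticThreefoldsSelmer
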